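import Pool.Agent.H224R2.Mah.Defs

/-!
# Task D2: the real upper bound by Fubini
-/

namespace Pool.Agent.H224R2.Mah

open MeasureTheory Set Filter Topology
open scoped ENNReal RealInnerProductSpace

namespace D2

variable {n : ℕ} {ι : Type} [Fintype ι]

/-- the point with real part `x` and imaginary part `y` -/
def cb (y x : Fin n → ℝ) : Fin n → ℂ := fun k => (⟨x k, y k⟩ : ℂ)

/-- real and imaginary parts as a measurable equivalence -/
noncomputable def eqv (n : ℕ) : (Fin n → ℂ) ≃ᵐ (Fin n → ℝ) × (Fin n → ℝ) :=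
  ((MeasurableEquiv.piCongrRight (fun _ : Fin n => Complex.measurableEquivRealProd)).trans
    (MeasurableEquiv.arrowProdEquivProdArrow ℝ ℝ (Fin n))).trans MeasurableEquiv.prodComm

theorem eqv_apply (z : Fin n → ℂ) : eqv n z = (fun k => (z k).im, fun k => (z k).re) := rfl

theorem cb_eqv (z : Fin n → ℂ) : cb (eqv n z).1 (eqv n z).2 = z := by
  funext k
  rfl

theorem eqv_mp : MeasurePreserving (eqv n) (volume : Measure (Fin n → ℂ)) (volume.prod volume) := by
  have h1 : MeasurePreserving (fun (z : Fin n → ℂ) (k : Fin n) =>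
      Complex.measurableEquivRealProd (z k)) volume volume :=
    volume_preserving_pi fun _ => Complex.volume_preserving_equiv_real_prod
  have h2 := (volume_measurePreserving_arrowProdEquivProdArrow ℝ ℝ (Fin n)).comp h1
  have h3 : MeasurePreserving (Prod.swap : (Fin n → ℝ) × (Fin n → ℝ) → _)
      (volume.prod volume) (volume.prod volume) := Measure.measurePreserving_swap
  exact h3.comp h2

theorem lint_le (F : (Fin n → ℂ) → ℝ≥0∞) :
    ∫⁻ z, F z ≤ ∫⁻ y : Fin n → ℝ, ∫⁻ x : Fin n → ℝ, F (cb y x) := by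
  have h1 : ∫⁻ z, F z = ∫⁻ p : (Fin n → ℝ) × (Fin n → ℝ), F (cb p.1 p.2)
      ∂(volume.prod volume) := by
    rw [← eqv_mp.lintegral_comp_emb (eqv n).measurableEmbedding]
    exact lintegral_congr fun z => by rw [cb_eqv]
  rw [h1]
  exact lintegral_prod_le _

theorem cont_uu (a : Fin n → ℝ) : Continuous (uu a) := by
  unfold uu
  fun_prop

theorem cont_cb (y : Fin n → ℝ) : Continuous (cb y) := by
  unfold cb
  refine continuous_pi fun k => ?_
  have : (fun x : Fin n → ℝ => (⟨x k, y k⟩ : ℂ)) =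
      fun x : Fin n → ℝ => ((x k : ℝ) : ℂ) + ((y k : ℝ) : ℂ) * Complex.I := by
    funext x
    exact Complex.mk_eq_add_mul_I _ _
  rw [this]
  fun_prop

theorem isOpen_Om {P : Set ℂ} (hP : IsOpen P) (a : ι → Fin n → ℝ) : IsOpen (Om P a) := by
  have : Om P a = ⋂ j, (uu (a j)) ⁻¹' P := by
    ext z
    simp [Om]
  rw [this]
  exact isOpen_iInter_of_finite fun j => hP.preimage (cont_uu _)

theorem isOpen_sub {P : Set ℂ} {S : ℕ → ℂ → ℝ} (hD : Dom P S) (a : ι → Fin n → ℝ) (m : ι → ℕ)
    (hm : ∀ j, 2 ≤ m j) : IsOpen {z | z ∈ Om P a ∧ GG (fun j => S (m j)) a z < 1} := by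
  have h1 : ContinuousOn (GG (fun j => S (m j)) a) (Om P a) := by
    unfold GG
    refine continuousOn_finsetSum _ fun j _ => ?_
    exact (hD.psh (m j) (hm j)).smooth.continuousOn.comp (cont_uu _).continuousOn
      fun z hz => hz j
  exact h1.isOpen_inter_preimage (isOpen_Om hD.isOpen a) isOpen_Iio

theorem im_uu (a : Fin n → ℝ) (z : Fin n → ℂ) : (uu a z).im = ∑ k, a k * (z k).im := by
  unfold uu
  rw [Complex.im_sum]
  exact Finset.sum_congr rfl fun k _ => by simp

theorem meas_QQ (a : ι → Fin n → ℝ) : MeasurableSet (QQ a) := by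
  have : QQ a = ⋂ j, {y : Fin n → ℝ | |∑ k, a j k * y k| ≤ 1} := by
    ext y
    simp [QQ]
  rw [this]
  refine MeasurableSet.iInter fun j => ?_
  exact (isClosed_le (by fun_prop) continuous_const).measurableSet

end D2

open D2 in
/-- D2. The real upper bound, from D1. -/
theorem D2_real_of {n : ℕ} {ι : Type} [Fintype ι] {P : Set ℂ} {S : ℕ → ℂ → ℝ} (hD : Dom P S)
    (a : ι → Fin n → ℝ) (L : Set (Fin n → ℝ)) (m : ι → ℕ) (hm : ∀ j, 2 ≤ m j)
    (hD1 : ∀ y : Fin n → ℝ,
      ∫⁻ x in {x : Fin n → ℝ | (fun k => (⟨x k, y k⟩ : ℂ)) ∈ Om P a ∧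
        GG (fun j => S (m j)) a (fun k => (⟨x k, y k⟩ : ℂ)) < 1},
      ENNReal.ofReal (MM (fun j u => |dx (S (m j)) u|) a (fun k => (⟨x k, y k⟩ : ℂ))).det ≤
      volume L) :
    ∫⁻ z in {z | z ∈ Om P a ∧ GG (fun j => S (m j)) a z < 1},
      ENNReal.ofReal (MM (fun j u => |dx (S (m j)) u|) a z).det ≤ volume (QQ a) * volume L := by
  have hs := isOpen_sub hD a m hm
  set s : Set (Fin n → ℂ) := {z | z ∈ Om P a ∧ GG (fun j => S (m j)) a z < 1} with hsdef
  set F : (Fin n → ℂ) → ℝ≥0∞ :=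
    fun z => ENNReal.ofReal (MM (fun j u => |dx (S (m j)) u|) a z).det with hF
  have h1 : ∫⁻ z in s, F z = ∫⁻ z, s.indicator F z :=
    (lintegral_indicator hs.measurableSet F).symm
  rw [h1]
  refine (lint_le _).trans ?_
  have h2 : ∀ y : Fin n → ℝ, ∫⁻ x : Fin n → ℝ, s.indicator F (cb y x) ≤
      (QQ a).indicator (fun _ => volume L) y := by
    intro y
    have h3 : ∀ x, s.indicator F (cb y x) =
        ((cb y) ⁻¹' s).indicator (fun x => F (cb y x)) x := fun x => rfl
    simp only [h3]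
    rw [lintegral_indicator (hs.measurableSet.preimage (cont_cb y).measurable)]
    by_cases hy : y ∈ QQ a
    · rw [indicator_of_mem hy]
      exact hD1 y
    · rw [indicator_of_notMem hy]
      have h4 : (cb y) ⁻¹' s = ∅ := by
        rw [eq_empty_iff_forall_notMem]
        intro x hx
        apply hy
        intro j
        have h5 := hD.im_lt _ (hx.1 j)
        rw [im_uu] at h5
        exact h5.le
      rw [h4]
      simp
  refine (lintegral_mono h2).trans ?_
  rw [lintegral_indicator (meas_QQ a), setLIntegral_const, mul_comm]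

end Pool.Agent.H224R2.Mah
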